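import Mathlib

set_option autoImplicit false

namespace Pool.Agent.Results.MP_0067de_an.No

open Set MeasureTheory Filter
open scoped ENNReal NNReal

/-- `M_φ f (x) = sup_{t>0} (φ_t * |f|)(x)`, `φ_t(y) = t⁻¹ φ(y/t)`. -/
noncomputable def M (φ f : ℝ → ℝ) (x : ℝ) : ℝ :=
  ⨆ t : Ioi (0 : ℝ), ∫ y, (t : ℝ)⁻¹ * φ (y / t) * |f (x - y)|

def N : ℕ → ℕ
  | 0 => 1
  | k + 1 => 2 ^ (k + 8) * N k ^ 2

noncomputable def e (k : ℕ) : ℝ := 1 / (64 * (N k : ℝ) ^ 2)

def A (k : ℕ) : Set ℝ := Icc (-1 - e k) (-1 + e k) ∪ Icc (1 - e k) (1 + e k)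

noncomputable def g (k : ℕ) : ℝ → ℝ := (A k).indicator fun _ => (1 / 2) ^ (k + 1) / (4 * e k)

noncomputable def phi (u : ℝ) : ℝ := ∑' k, g k u

lemma N1 (k : ℕ) : 4 ^ k ≤ N k := by
  induction k with
  | zero => simp [N]
  | succ k ih =>
    have : 1 ≤ 4 ^ k := Nat.one_le_pow _ _ (by norm_num)
    have : 2 ^ 8 ≤ 2 ^ (k + 8) := Nat.pow_le_pow_right (by norm_num) (by omega)
    rw [N, pow_succ]
    nlinarith

lemma N0 (k : ℕ) : (1 : ℝ) ≤ N k := by
  exact_mod_cast (Nat.one_le_pow _ _ (by norm_num)).trans (N1 k)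

lemma e0 (k : ℕ) : 0 < e k := by have := N0 k; unfold e; positivity

lemma eanti : Antitone e := antitone_nat_of_succ_le fun k => by
  have a := N0 k
  have : 1 ≤ 2 ^ (k + 8) := Nat.one_le_two_pow
  have : (N k : ℝ) ≤ N (k + 1) := by
    norm_cast at a ⊢
    rw [N]
    nlinarith
  unfold e
  gcongr

lemma e1 (k : ℕ) : e k ≤ 1 / 64 := (eanti k.zero_le).trans (by simp [e, N])

lemma mA (k : ℕ) : MeasurableSet (A k) := measurableSet_Icc.union measurableSet_Icc

lemma fA (k : ℕ) (S : Set ℝ) : volume (A k ∩ S) ≠ ∞ :=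
  ((measure_mono inter_subset_left).trans_lt ((measure_union_le _ _).trans_lt (by simp))).ne

lemma vA (k : ℕ) : volume.real (A k) = 4 * e k := by
  have := e0 k
  have := e1 k
  rw [A, measureReal_union _ measurableSet_Icc (by simp) (by simp), Real.volume_real_Icc_of_le,
    Real.volume_real_Icc_of_le] <;> try linarith
  exact disjoint_left.2 fun x a b => by linarith [a.2, b.1]

noncomputable def w (k : ℕ) (S : Set ℝ) : ℝ := (1 / 2) ^ (k + 1) * (volume.real (A k ∩ S) / (4 * e k))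

lemma w0 (k : ℕ) (S : Set ℝ) : 0 ≤ w k S := by have := e0 k; unfold w; positivity

lemma wle {k : ℕ} {S : Set ℝ} {c : ℝ} (h : volume.real (A k ∩ S) ≤ c * (4 * e k)) :
    w k S ≤ (1 / 2) ^ (k + 1) * c :=
  mul_le_mul_of_nonneg_left ((div_le_iff₀ (by have := e0 k; positivity)).2 h) (by positivity)

lemma w1 (k : ℕ) (S : Set ℝ) : w k S ≤ (1 / 2) ^ (k + 1) * 1 := wle <| by
  rw [one_mul, ← vA]
  exact measureReal_mono inter_subset_left (by simpa using fA k univ)

lemma geo (k : ℕ) (c : ℝ) : HasSum (fun j => (1 / 2 : ℝ) ^ (j + k + 1) * c) ((1 / 2) ^ k * c) := by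
  have := hasSum_geometric_two.mul_right ((1 / 2) ^ (k + 1) * c)
  simp only [← mul_assoc, ← pow_add, ← add_assoc] at this
  rwa [show 2 * (1 / 2 : ℝ) ^ (k + 1) = (1 / 2) ^ k by ring] at this

lemma hs {S : Set ℝ} (hS : MeasurableSet S) :
    HasSum (fun k => w k S) (∫ u, phi u * S.indicator 1 u) := by
  have a : ∀ k u, g k u * S.indicator 1 u =
      (A k ∩ S).indicator (fun _ => (1 / 2) ^ (k + 1) / (4 * e k)) u := fun k u => by
    rw [g, ← inter_indicator_mul]
    simp
  have b : ∀ k, ∫ u, g k u * S.indicator 1 u = w k S := fun k => by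
    simp only [a]
    rw [integral_indicator_const _ ((mA k).inter hS), w, smul_eq_mul]
    ring
  simp only [phi, ← tsum_mul_right, ← b]
  refine hasSum_integral_of_summable_integral_norm (fun k => ?_) ?_
  · simp only [a]
    exact (integrable_indicator_iff ((mA k).inter hS)).2 (integrableOn_const (fA k S))
  · refine .of_nonneg_of_le (fun k => integral_nonneg fun u => norm_nonneg _) (fun k => ?_)
      (geo 0 1).summable
    refine le_trans (le_of_eq ?_) (w1 k S)
    rw [← b]
    congr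
    ext u
    rw [a]
    exact Real.norm_of_nonneg (indicator_nonneg (fun _ _ => by have := e0 k; positivity) _)

lemma conv {B : Set ℝ} (hB : MeasurableSet B) (x : ℝ) {t : ℝ} (ht : 0 < t) :
    HasSum (fun k => w k {u | x - t * u ∈ B})
      (∫ y, t⁻¹ * phi (y / t) * |B.indicator (1 : ℝ → ℝ) (x - y)|) := by
  have := Measure.integral_comp_div (fun u => phi u * {u | x - t * u ∈ B}.indicator 1 u) t
  convert hs (S := {u | x - t * u ∈ B}) (hB.preimage (by fun_prop)) using 1
  rw [abs_of_pos ht, smul_eq_mul] at this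
  rw [← inv_mul_cancel_left₀ ht.ne' (∫ u, phi u * _), ← this, ← integral_const_mul]
  congr
  ext y
  by_cases h : x - y ∈ B <;> simp [indicator, h, mul_div_cancel₀ _ ht.ne']

lemma bdd {B : Set ℝ} (hB : MeasurableSet B) (x : ℝ) : BddAbove (range fun t : Ioi (0 : ℝ) =>
    ∫ y, (t : ℝ)⁻¹ * phi (y / t) * |B.indicator (1 : ℝ → ℝ) (x - y)|) :=
  ⟨_, forall_mem_range.2 fun t => hasSum_le (fun k => w1 k _) (conv hB x t.2) (geo 0 1)⟩

lemma var_le {ι : Type} (s : Finset ι) (a b : ι → ℝ) :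
    eVariationOn ((⋃ i ∈ s, Ico (a i) (b i)).indicator (1 : ℝ → ℝ)) univ ≤ (2 * s.card : ℕ) := by
  let G : ℝ → ℝ := fun x => ∑ i ∈ s, ((if a i ≤ x then 1 else 0) + if b i ≤ x then 1 else 0)
  have key : ∀ x y, x ≤ y → |(⋃ i ∈ s, Ico (a i) (b i)).indicator (1 : ℝ → ℝ) y -
      (⋃ i ∈ s, Ico (a i) (b i)).indicator 1 x| ≤ G y - G x := by
    intro x y hxy
    rw [← Finset.sum_sub_distrib]
    have nn : ∀ i ∈ s, (0 : ℝ) ≤ ((if a i ≤ y then 1 else 0) + if b i ≤ y then 1 else 0) -
        ((if a i ≤ x then 1 else 0) + if b i ≤ x then 1 else 0) := fun i _ => by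
      split_ifs <;> first | linarith | norm_num
    by_cases hx : x ∈ ⋃ i ∈ s, Ico (a i) (b i) <;> by_cases hy : y ∈ ⋃ i ∈ s, Ico (a i) (b i)
    · simpa [hx, hy] using Finset.sum_nonneg nn
    · obtain ⟨i, hi, h⟩ := mem_iUnion₂.1 hx
      have : b i ≤ y := not_lt.1 fun h' => hy (mem_iUnion₂.2 ⟨i, hi, h.1.trans hxy, h'⟩)
      refine le_trans ?_ (Finset.single_le_sum nn hi)
      simp [hx, hy, this, h.1, h.1.trans hxy, h.2.not_ge]
    · obtain ⟨i, hi, h⟩ := mem_iUnion₂.1 hy
      have : ¬ a i ≤ x := fun h' => hx (mem_iUnion₂.2 ⟨i, hi, h', hxy.trans_lt h.2⟩)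
      refine le_trans ?_ (Finset.single_le_sum nn hi)
      simp [hx, hy, this, h.1, h.2.not_ge, (hxy.trans_lt h.2).not_ge]
    · simpa [hx, hy] using Finset.sum_nonneg nn
  refine iSup_le fun ⟨n, u, hu, _⟩ => ?_
  simp only [edist_dist, Real.dist_eq]
  rw [← ENNReal.ofReal_sum_of_nonneg fun _ _ => abs_nonneg _, ← ENNReal.ofReal_natCast]
  refine ENNReal.ofReal_le_ofReal ((Finset.sum_le_sum fun i _ => key _ _ (hu i.le_succ)).trans ?_)
  rw [Finset.sum_range_sub fun i => G (u i)]
  have a1 : 0 ≤ G (u 0) := Finset.sum_nonneg fun i _ => by split_ifs <;> norm_num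
  have a2 : G (u n) ≤ _ := Finset.sum_le_card_nsmul s _ 2 fun i _ => by split_ifs <;> norm_num
  rw [nsmul_eq_mul] at a2
  push_cast
  linarith

noncomputable def c (k : ℕ) : ℕ ⊕ ℕ → ℝ
  | .inl i => -(2 - 64 * e k * i)
  | .inr j => 2 + 64 * e k * (N k * j)

def B (k : ℕ) : Set ℝ := ⋃ i ∈ (Finset.range (N k)).disjSum (Finset.range (N k)),
  Ico (c k i - 4 * e k) (c k i + 4 * e k)

lemma mB (k : ℕ) : MeasurableSet (B k) := Finset.measurableSet_biUnion _ fun _ _ => measurableSet_Ico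

lemma eN (k : ℕ) : 64 * e k * (N k * N k) = 1 := by
  have := N0 k
  unfold e
  field_simp

lemma peak (k : ℕ) {m : ℕ} (hm : m < N k * N k) :
    (1 / 2) ^ k ≤ M phi ((B k).indicator 1) (32 * e k * m) := by
  have n0 : 0 < N k := Nat.pos_of_ne_zero fun h => by simp [h] at hm
  have i1 := Nat.mod_lt m n0
  have j1 := Nat.div_lt_of_lt_mul hm
  have ij : (N k * (m / N k : ℕ) + (m % N k : ℕ) : ℝ) = m := by exact_mod_cast Nat.div_add_mod m (N k)
  have a0 := e0 k
  have a1 := eN k
  have a2 := N0 k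
  have m1 : (m : ℝ) ≤ N k * N k := by exact_mod_cast hm.le
  have i2 : ((m % N k : ℕ) : ℝ) ≤ N k * N k := le_trans (by exact_mod_cast Nat.mod_le _ _) m1
  have i3 : 0 ≤ e k * (m % N k : ℕ) := by positivity
  have m3 : 0 ≤ e k * m := by positivity
  set t := 32 * e k * m + 2 - 64 * e k * (m % N k : ℕ) with ht
  have t0 : 0 < t := by nlinarith
  have t1 : t ≤ 3 := by nlinarith
  refine le_trans ?_ (le_ciSup (bdd (mB k) _) ⟨t, t0⟩)
  have h := (hasSum_nat_add_iff' k).2 (conv (mB k) (32 * e k * m) t0)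
  have := hasSum_le (fun l => ?_) (geo k 1) h
  · linarith [Finset.sum_nonneg (s := Finset.range k) fun l _ => w0 l {u | 32 * e k * m - t * u ∈ B k}]
  rw [w, inter_eq_left.2, vA, div_self (by have := e0 (l + k); positivity)]
  have := eanti (Nat.le_add_left k l)
  rintro u (⟨u1, u2⟩ | ⟨u1, u2⟩)
  · refine mem_iUnion₂.2 ⟨.inr (m / N k), by simpa using j1, ?_, ?_⟩ <;> simp only [c] <;> nlinarith
  · refine mem_iUnion₂.2 ⟨.inl (m % N k), by simpa using i1, ?_, ?_⟩ <;> simp only [c] <;> nlinarith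

lemma memB {k : ℕ} {y : ℝ} (h : y ∈ B k) : ∃ i : ℕ, (64 * e k * i ≤ 1) ∧
    (|y + 2 - 64 * e k * i| ≤ 4 * e k ∨ |y - 2 - 64 * e k * i| ≤ 4 * e k) := by
  have a0 := e0 k
  have a1 := eN k
  have a2 := N0 k
  obtain ⟨i | j, hi, h1, h2⟩ := mem_iUnion₂.1 h <;> simp only [c] at h1 h2
  · have : (i : ℝ) ≤ N k := by exact_mod_cast (by simpa using hi : i < N k).le
    exact ⟨i, by nlinarith [mul_le_mul_of_nonneg_left (this.trans (by nlinarith : _ ≤ (N k * N k : ℝ))) a0.le],
      .inl (abs_le.2 ⟨by linarith, by linarith⟩)⟩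
  · have : (j : ℝ) ≤ N k := by exact_mod_cast (by simpa using hi : j < N k).le
    refine ⟨N k * j, ?_, .inr ?_⟩ <;> push_cast
    · rw [← a1]
      gcongr
    · exact abs_le.2 ⟨by linarith, by linarith⟩

lemma gap (k : ℕ) {m : ℕ} (hm : m < N (k + 1) * N (k + 1)) :
    M phi ((B (k + 1)).indicator 1) (32 * e (k + 1) * (m + 1 / 2)) ≤ (1 / 2) ^ (k + 1) * (3 / 4) := by
  haveI : Nonempty (Ioi (0 : ℝ)) := ⟨⟨1, mem_Ioi.2 one_pos⟩⟩
  refine ciSup_le fun ⟨t, (t0 : 0 < t)⟩ => ?_
  set K := k + 1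
  have a0 := e0 K
  have a1 := eN K
  have a2 := N0 K
  have a3 := e1 K
  have m1 : (m + 1 : ℝ) ≤ N K * N K := by exact_mod_cast hm
  set x := 32 * e K * (m + 1 / 2) with hx
  have x0 : 0 ≤ x := by positivity
  have x1 : x ≤ 1 / 2 := by nlinarith
  have h := (hasSum_nat_add_iff' K).2 (conv (mB K) x t0)
  have h1 := hasSum_le (fun l => wle ?_) h (geo K (1 / 2))
  · have h2 : ∑ l ∈ Finset.range K, w l {u | x - t * u ∈ B K} ≤ (1 / 2) ^ 0 * ((1 / 2) ^ K / 4) := by
      refine le_trans (Finset.sum_le_sum fun l hl => wle ?_)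
        (sum_le_hasSum _ (fun _ _ => by positivity) (geo 0 _))
      rcases lt_or_ge t (1 / 4) with ht | ht
      · rw [eq_empty_of_forall_notMem (s := A l ∩ _), measureReal_empty]
        · have := e0 l
          positivity
        have := e1 l
        rintro u ⟨hu, hb⟩
        have : |u| ≤ 2 := by
          rcases hu with hu | hu <;> exact abs_le.2 ⟨by linarith [hu.1], by linarith [hu.2]⟩
        have := abs_le.1 (show |t * u| ≤ 1 / 4 * 2 by rw [abs_mul, abs_of_pos t0]; gcongr)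
        obtain ⟨i, i1, hi | hi⟩ := memB hb <;> have := abs_le.1 hi
        · linarith
        · have : 0 ≤ e K * i := by positivity
          linarith
      · have sub : A l ∩ {u | x - t * u ∈ B K} ⊆
            ⋃ i ∈ (Finset.range (N K)).disjSum (Finset.range (N K)),
              Icc ((x - c K i - 4 * e K) / t) ((x - c K i + 4 * e K) / t) := by
          rintro u ⟨-, hb⟩
          obtain ⟨i, hi, b1, b2⟩ := mem_iUnion₂.1 hb
          exact mem_iUnion₂.2 ⟨i, hi, (div_le_iff₀ t0).2 (by linarith), (le_div_iff₀ t0).2 (by linarith)⟩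
        refine (measureReal_mono sub (measure_biUnion_ne_top (Finset.finite_toSet _)
          (by simp))).trans ((measureReal_biUnion_finset_le _ _).trans
          ((Finset.sum_le_card_nsmul _ _ (32 * e K) fun i _ => ?_).trans ?_))
        · rw [Real.volume_real_Icc_of_le (by gcongr; linarith), ← sub_div, div_le_iff₀ t0]
          nlinarith
        · have b1 := eanti (Nat.le_of_lt_succ (Finset.mem_range.1 hl))
          have b2 : (1 / 2) ^ K * e k * N K = 2 := by
            have := N0 k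
            simp only [K, N, e]
            push_cast
            rw [one_div_pow]
            field_simp
            ring
          have b3 : (1 / 2) ^ K * e k ≤ (1 / 2) ^ K * e l := by gcongr
          simp only [Finset.card_disjSum, Finset.card_range, nsmul_eq_mul]
          push_cast
          refine le_of_mul_le_mul_right ?_ (by linarith : (0 : ℝ) < N K)
          nlinarith
    linarith
  have b0 := e0 (l + K)
  have b1 := eanti (Nat.le_add_left K l)
  have : A (l + K) ∩ {u | x - t * u ∈ B K} ⊆ Icc (-1 - e (l + K)) (-1 + e (l + K)) ∨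
      A (l + K) ∩ {u | x - t * u ∈ B K} ⊆ Icc (1 - e (l + K)) (1 + e (l + K)) := by
    by_contra hc
    simp only [not_or, not_subset] at hc
    obtain ⟨⟨u, ⟨hu | hu, bu⟩, nu⟩, v, ⟨hv | hv, bv⟩, nv⟩ := hc <;> try contradiction
    obtain ⟨u1, u2⟩ := hu
    obtain ⟨v1, v2⟩ := hv
    have tu : 0 ≤ t * u := by nlinarith
    have tv : t * v ≤ 0 := by nlinarith
    obtain ⟨i, i1, hi | hi⟩ := memB bu <;> have hi := abs_le.1 hi <;>
      obtain ⟨j, j1, hj | hj⟩ := memB bv <;> have hj := abs_le.1 hj <;>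
      have i0 : 0 ≤ e K * i := by positivity
    all_goals try linarith
    have t4 : t ≤ 3 := by nlinarith
    have d1 : t * (u + v) ≤ 3 * (2 * e K) := by nlinarith
    have d2 : -(3 * (2 * e K)) ≤ t * (u + v) := by nlinarith
    rcases le_or_gt (i + j) m with c | c
    · have : (i + j : ℝ) ≤ m := by exact_mod_cast c
      nlinarith
    · have : (m + 1 : ℝ) ≤ i + j := by exact_mod_cast c
      nlinarith
  rcases this with h | h <;> refine (measureReal_mono h (by simp)).trans ?_ <;>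
    rw [Real.volume_real_Icc_of_le (by linarith)] <;> linarith

theorem result : ∃ φ : ℝ → ℝ, (∀ x, 0 ≤ φ x) ∧ Integrable φ ∧ ∫ x, φ x = 1 ∧ (∀ x, φ (-x) = φ x) ∧
    ∀ C : ℝ≥0, ∃ f : ℝ → ℝ, BoundedVariationOn f univ ∧
      C * eVariationOn f univ < eVariationOn (M φ f) univ := by
  have i1 : ∫ x, phi x = 1 := by
    have := hs MeasurableSet.univ
    simp only [w, inter_univ, vA, div_self (mul_pos four_pos (e0 _)).ne'] at this
    simpa using this.unique (geo 0 1)
  refine ⟨phi, fun x => tsum_nonneg fun k => indicator_nonneg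
    (fun _ _ => by have := e0 k; positivity) _, .of_integral_ne_zero (by simp [i1]), i1,
    fun x => tsum_congr fun k => ?_, fun C => ?_⟩
  · have : -x ∈ A k ↔ x ∈ A k := by
      simp only [A, mem_union, mem_Icc]
      constructor <;> rintro (h | h) <;> [right; left; right; left] <;>
        constructor <;> linarith [h.1, h.2]
    by_cases h : x ∈ A k <;> simp [g, this, h]
  obtain ⟨k, hk⟩ := pow_unbounded_of_one_lt (16 * C : ℝ) one_lt_two
  have v := var_le ((Finset.range (N (k + 1))).disjSum (Finset.range (N (k + 1))))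
    (fun i => c (k + 1) i - 4 * e (k + 1)) fun i => c (k + 1) i + 4 * e (k + 1)
  refine ⟨(B (k + 1)).indicator 1, ne_top_of_le_ne_top (ENNReal.natCast_ne_top _) v, ?_⟩
  have a0 := e0 (k + 1)
  let u : ℕ → ℝ := fun n => 16 * e (k + 1) * n
  have := eVariationOn.sum_le (f := M phi ((B (k + 1)).indicator 1)) (s := univ) (u := u)
    (n := 2 * (N (k + 1) * N (k + 1))) (fun a b h => by simp only [u]; gcongr) fun _ => trivial
  refine lt_of_le_of_lt (mul_le_mul_right v _) (lt_of_lt_of_le ?_ this)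
  set n := N (k + 1) * N (k + 1) with hn
  have low : ∀ m ∈ Finset.range n, ENNReal.ofReal ((1 / 2) ^ (k + 1) / 4) ≤
      edist (M phi ((B (k + 1)).indicator 1) (u (2 * m + 1)))
        (M phi ((B (k + 1)).indicator 1) (u (2 * m))) := fun m hm => by
    have p := peak (k + 1) (Finset.mem_range.1 hm)
    have q := gap k (Finset.mem_range.1 hm)
    rw [edist_dist, Real.dist_eq, abs_sub_comm]
    refine ENNReal.ofReal_le_ofReal (le_trans ?_ (le_abs_self _))
    simp only [u]
    push_cast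
    rw [show 16 * e (k + 1) * (2 * m) = 32 * e (k + 1) * m by ring,
      show 16 * e (k + 1) * (2 * m + 1) = 32 * e (k + 1) * (m + 1 / 2) by ring]
    linarith
  have s1 := Finset.card_nsmul_le_sum _ _ _ low
  rw [← Finset.sum_image (f := fun i => edist (M phi ((B (k + 1)).indicator 1) (u (i + 1)))
    (M phi ((B (k + 1)).indicator 1) (u i))) (g := fun m => 2 * m) fun a _ b _ h => by
      simpa using h] at s1
  refine lt_of_lt_of_le ?_ (s1.trans (Finset.sum_le_sum_of_subset fun i hi => ?_))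
  · rw [nsmul_eq_mul, ← ENNReal.ofReal_natCast, ← ENNReal.ofReal_natCast, ← ENNReal.ofReal_coe_nnreal,
      ← ENNReal.ofReal_mul (by positivity), ← ENNReal.ofReal_mul (by positivity)]
    have b1 : (4 : ℝ) ^ (k + 1) ≤ N (k + 1) := by exact_mod_cast N1 (k + 1)
    have b2 : (4 : ℝ) ^ (k + 1) * (1 / 2) ^ (k + 1) = 2 * 2 ^ k := by
      rw [← mul_pow]
      norm_num [pow_succ, mul_comm]
    have b3 := N0 (k + 1)
    have b4 : (0 : ℝ) < (1 / 2) ^ (k + 1) := by positivity
    refine (ENNReal.ofReal_lt_ofReal_iff ?_).2 ?_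
    · simp only [Finset.card_range, hn]
      push_cast
      positivity
    simp only [Finset.card_disjSum, Finset.card_range, hn]
    push_cast
    have b5 : 2 * 2 ^ k ≤ N (k + 1) * (1 / 2 : ℝ) ^ (k + 1) := by rw [← b2]; gcongr
    nlinarith [C.2]
  · obtain ⟨m, hm, rfl⟩ := Finset.mem_image.1 hi
    simp only [Finset.mem_range] at hm ⊢
    omega

end Pool.Agent.Results.MP_0067de_an.No
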